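import Pool.Agent.Helper17.DF.Geo

set_option autoImplicit false

/-!
DG-4: the 26 vertices of the configuration A are distinct.
-/

namespace Pool.Agent.Helper17.CT
open Function

section
variable {D : Type} [Finite D] {M : CMap D}

private theorem dg4_adj3 (hN : Nice M) {x y w : D} (h : M.Face x y) (h1 : M.Face (M.a x) w)
    (h2 : M.Face (M.a w) (M.a y)) : M.f y = x ∨ M.f x = y := by
  have h3 : M.Face (M.a (M.a y)) x := by
    rw [M.a2]
    exact face_symm M h
  rcases faces3 M hN.pl hN.c4 hN.nfa h1 h2 h3 with ⟨e1, e2⟩ | ⟨e1, e2⟩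
  · left
    change M.s (M.a y) = x
    rw [e2, e1, M.s3]
  · right
    rw [M.a2] at e1
    exact e1.symm

private theorem dg4_vtx {y w q q0 : D} (hw : M.Face y w) (hq : M.Face q0 q) (h : M.VEq w q) :
    M.Face y q0 ∨ ∃ w', M.Face y w' ∧ M.Face (M.a w') q0 ∧
      ((w' = w ∧ q = M.s w) ∨ (w' = M.a q)) := by
  rcases h with h | h | h
  · left
    rw [h] at hq
    exact face_trans M hw (face_symm M hq)
  · right
    refine ⟨w, hw, ?_, Or.inl ⟨rfl, h⟩⟩
    have h1 : M.Face (M.a w) q := ⟨1, by rw [h]; simp [CMap.f, M.a2]⟩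
    exact face_trans M h1 (face_symm M hq)
  · right
    refine ⟨M.a q, ?_, ?_, Or.inr rfl⟩
    · have h1 : M.s q = w := by rw [h, M.s3]
      have h2 : M.Face (M.a q) w := ⟨1, by simp [CMap.f, M.a2, h1]⟩
      exact face_trans M hw (face_symm M h2)
    · rw [M.a2]
      exact face_symm M hq

omit [Finite D] in
private theorem dg4_last {y : D} {c : ℕ} (hc : minimalPeriod M.f (M.a y) = c + 1) :
    M.f (M.a (M.f y)) = M.a ((M.f)^[c] (M.a y)) := by
  have h1 : M.f ((M.f)^[c] (M.a y)) = M.a y := by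
    rw [← iterate_succ_apply' M.f, Nat.succ_eq_add_one, ← hc]
    exact iterate_minimalPeriod
  have h2 : M.s (M.a ((M.f)^[c] (M.a y))) = M.a y := h1
  have h3 : M.f (M.a (M.f y)) = M.s (M.s (M.a y)) := by simp [CMap.f, M.a2]
  rw [h3]
  have h4 := M.s3 (M.a ((M.f)^[c] (M.a y)))
  rw [h2] at h4
  exact h4

private theorem dg4_key (hN : Nice M) (d : D) (h6 : minimalPeriod M.f d = 6)
    (h0 : minimalPeriod M.f (M.a d) = 5)
    (hn : ∀ i, 1 ≤ i → i < 6 → minimalPeriod M.f (M.a ((M.f)^[i] d)) = 6)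
    (hX : minimalPeriod M.f (M.a ((M.f)^[2] (M.a d))) = 6)
    (hnd : ∀ i, (i = 2 ∨ i = 3) → ∀ x, M.Face (M.a ((M.f)^[i] d)) x →
      ¬ M.Face (M.a ((M.f)^[2] (M.a d))) (M.a x)) (m : ℕ) (hm : 3 ≤ m) (hm' : m < 6) (w : D)
    (hw : M.Face d w ∨ ∃ i < 6, M.Face (M.a ((M.f)^[i] d)) w)
    (h : M.VEq w ((M.f)^[m] (M.a ((M.f)^[2] (M.a d))))) : False := by
  set q0 := M.a ((M.f)^[2] (M.a d)) with hq0
  have hqm : M.Face q0 ((M.f)^[m] q0) := ⟨m, rfl⟩
  have hP : ∀ i j, M.Face ((M.f)^[i] (M.a d)) ((M.f)^[j] (M.a d)) := fun i j =>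
    face_trans M (face_symm M ⟨i, rfl⟩) ⟨j, rfl⟩
  have hap : M.a q0 = (M.f)^[2] (M.a d) := by rw [hq0, M.a2]
  have inj5 : ∀ i j, i < 5 → j < 5 → (M.f)^[i] (M.a d) = (M.f)^[j] (M.a d) → i = j :=
    fun i j hi hj e => ct13_iter (by rw [h0]; exact hi) (by rw [h0]; exact hj) e
  have inj6 : ∀ i j, i < 6 → j < 6 → (M.f)^[i] q0 = (M.f)^[j] q0 → i = j :=
    fun i j hi hj e => ct13_iter (by rw [hX]; exact hi) (by rw [hX]; exact hj) e
  have h1a : ¬ M.Face d q0 := by
    intro h
    have e := faces2 M hN.pl hN.con hN.nfa (x := M.a d) (y := (M.f)^[2] (M.a d)) (hP 0 2)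
      (by rw [M.a2]; exact h)
    exact absurd (inj5 0 2 (by norm_num) (by norm_num) e) (by norm_num)
  have h1b : ∀ w, M.Face d w → ¬ M.Face (M.a w) q0 := by
    intro w hw h
    rcases dg4_adj3 hN (x := M.a d) (y := (M.f)^[2] (M.a d)) (w := w) (hP 0 2)
      (by rw [M.a2]; exact hw) h with e | e
    · exact absurd (inj5 3 0 (by norm_num) (by norm_num) e) (by norm_num)
    · exact absurd (inj5 1 2 (by norm_num) (by norm_num) e) (by norm_num)
  have hq1 : (M.f)^[1] q0 = M.s ((M.f)^[2] (M.a d)) := by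
    change M.s (M.a q0) = _
    rw [hap]
  have hf6 : M.f ((M.f)^[5] d) = d := by
    have e : (M.f)^[6] d = d := by
      rw [← h6]
      exact iterate_minimalPeriod
    exact e
  set n := M.a ((M.f)^[5] d) with hn5
  have hnp : minimalPeriod M.f n = 6 := hn 5 (by norm_num) (by norm_num)
  have injn : ∀ i j, i < 6 → j < 6 → (M.f)^[i] n = (M.f)^[j] n → i = j :=
    fun i j hi hj e => ct13_iter (by rw [hnp]; exact hi) (by rw [hnp]; exact hj) e
  have hN5 : ∀ i j, M.Face ((M.f)^[i] n) ((M.f)^[j] n) := fun i j =>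
    face_trans M (face_symm M ⟨i, rfl⟩) ⟨j, rfl⟩
  have e1 : M.f (M.a d) = M.a ((M.f)^[5] n) := by
    have e := dg4_last (M := M) (y := (M.f)^[5] d) (c := 5) hnp
    rw [hf6] at e
    exact e
  have e2 : M.a ((M.f)^[4] n) = (M.f)^[1] q0 := by
    rw [hq1]
    have e3 : (M.f)^[5] n = M.s (M.a ((M.f)^[4] n)) := by
      rw [iterate_succ_apply' M.f]
      rfl
    have e4 : (M.f)^[2] (M.a d) = M.s (M.s (M.a ((M.f)^[4] n))) := by
      change M.s (M.a (M.f (M.a d))) = _
      rw [e1, M.a2, e3]
    rw [e4, M.s3]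
  -- the general argument
  rcases hw with hw | ⟨i, hi, hw⟩
  · rcases dg4_vtx hw hqm h with h2 | ⟨w', h2, h3, -⟩
    · exact h1a h2
    · exact h1b w' h2 h3
  · have hhub : M.Face d ((M.f)^[i] d) := ⟨i, rfl⟩
    rcases dg4_vtx hw hqm h with h2 | ⟨w', h2, h3, h4⟩
    · exact h1b _ hhub h2
    · interval_cases i
      · -- the pentagon
        have e : w' = (M.f)^[2] (M.a d) := by
          refine faces2 M hN.pl hN.con hN.nfa ?_ ?_
          · exact face_trans M (face_symm M h2) ⟨2, rfl⟩
          · exact h3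
        rcases h4 with ⟨h4, h5⟩ | h4
        · rw [← h4, e, ← hq1] at h5
          have := inj6 m 1 hm' (by norm_num) h5
          omega
        · rw [h4] at e
          have h5 : (M.f)^[m] q0 = (M.f)^[0] q0 := by
            have h6' : (M.f)^[m] q0 = M.a (M.a ((M.f)^[m] q0)) := by rw [M.a2]
            rw [h6', e]
            rfl
          have := inj6 m 0 hm' (by norm_num) h5
          omega
      · -- neighbour 1
        have e3 : M.f (M.a (M.f d)) = M.a ((M.f)^[4] (M.a d)) :=
          dg4_last (M := M) (y := d) (c := 4) h0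
        have h5 : M.Face (M.a ((M.f)^[4] (M.a d))) w' := by
          refine face_trans M (face_symm M (⟨1, ?_⟩ : M.Face (M.a ((M.f)^[1] d)) _)) h2
          exact e3
        rcases dg4_adj3 hN (x := (M.f)^[4] (M.a d)) (y := (M.f)^[2] (M.a d)) (w := w') (hP 4 2)
          h5 h3 with e | e
        · exact absurd (inj5 3 4 (by norm_num) (by norm_num) e) (by norm_num)
        · have e5 : M.f ((M.f)^[4] (M.a d)) = M.a d := by
            have e6 : (M.f)^[5] (M.a d) = M.a d := by
              rw [← h0]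
              exact iterate_minimalPeriod
            exact e6
          rw [e5] at e
          exact absurd (inj5 0 2 (by norm_num) (by norm_num) e) (by norm_num)
      · exact hnd 2 (Or.inl rfl) w' h2 (face_symm M h3)
      · exact hnd 3 (Or.inr rfl) w' h2 (face_symm M h3)
      · -- neighbour 4
        have e3 : M.f (M.a (M.f n)) = M.a ((M.f)^[4] d) := by
          have e4 : M.f n = M.s ((M.f)^[5] d) := by
            change M.s (M.a (M.a ((M.f)^[5] d))) = _
            rw [M.a2]
          rw [e4]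
          change M.s (M.a (M.a (M.s ((M.f)^[5] d)))) = _
          rw [M.a2, iterate_succ_apply' M.f]
          change M.s (M.s (M.s (M.a ((M.f)^[4] d)))) = _
          rw [M.s3]
        have h5 : M.Face (M.a ((M.f)^[1] n)) w' := by
          refine face_trans M (⟨1, e3⟩ : M.Face (M.a (M.f n)) (M.a ((M.f)^[4] d))) h2
        have h6 : M.Face (M.a w') (M.a ((M.f)^[4] n)) := by
          rw [e2]
          exact face_trans M h3 ⟨1, rfl⟩
        rcases dg4_adj3 hN (x := (M.f)^[1] n) (y := (M.f)^[4] n) (w := w') (hN5 1 4) h5 h6 with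
          e | e
        · rw [← iterate_succ_apply' M.f] at e
          exact absurd (injn 5 1 (by norm_num) (by norm_num) e) (by norm_num)
        · rw [← iterate_succ_apply' M.f] at e
          exact absurd (injn 2 4 (by norm_num) (by norm_num) e) (by norm_num)
      · -- neighbour 5
        have e : w' = (M.f)^[4] n := by
          refine faces2 M hN.pl hN.con hN.nfa ?_ ?_
          · exact face_trans M (face_symm M h2) ⟨4, rfl⟩
          · rw [e2]
            exact face_trans M h3 ⟨1, rfl⟩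
        have e5 : (M.f)^[4] n = M.a ((M.f)^[1] q0) := by rw [← e2, M.a2]
        rcases h4 with ⟨h4, h5⟩ | h4
        · rw [← h4, e, e5] at h5
          have h7 : (M.f)^[m] q0 = (M.f)^[2] q0 := h5
          have := inj6 m 2 hm' (by norm_num) h7
          omega
        · rw [h4, e5] at e
          have h5 : (M.f)^[m] q0 = (M.f)^[1] q0 := ct10_a_inj M e
          have := inj6 m 1 hm' (by norm_num) h5
          omega

private theorem dg4_idx : ∀ t < 17, (getP idxA t).1 < 6 ∧ 2 ≤ (getP idxA t).2 ∧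
    (getP idxA t).2 + 2 ≤ (if (getP idxA t).1 = 0 then 5 else 6) := by
  decide

private theorem dg4_idx_inj : ∀ t < 17, ∀ t' < 17, (getP idxA t).1 = (getP idxA t').1 →
    (getP idxA t).2 = (getP idxA t').2 → t = t' := by
  decide

theorem injA (hN : Nice M) (d : D) (h6 : minimalPeriod M.f d = 6)
    (h0 : minimalPeriod M.f (M.a d) = 5)
    (hn : ∀ i, 1 ≤ i → i < 6 → minimalPeriod M.f (M.a ((M.f)^[i] d)) = 6)
    (hX : minimalPeriod M.f (M.a ((M.f)^[2] (M.a d))) = 6)
    (hnd : ∀ i, (i = 2 ∨ i = 3) → ∀ x, M.Face (M.a ((M.f)^[i] d)) x →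
      ¬ M.Face (M.a ((M.f)^[2] (M.a d))) (M.a x)) :
    ∀ v < 26, ∀ v' < 26, M.VEq (bsA M d v) (bsA M d v') → v = v' := by
  obtain ⟨w1, w2, w3⟩ := wheel_inj M hN.pl hN.con hN.c4 hN.nfa d 6 h6 (by norm_num)
    (fun i => if i = 0 then 5 else 6) (by
      intro i hi
      rcases Nat.eq_zero_or_pos i with h | h
      · subst h
        rw [if_pos rfl]
        exact h0
      · rw [if_neg (by omega)]
        exact hn i h hi)
  obtain ⟨x1, -, -⟩ := wheel_inj M hN.pl hN.con hN.c4 hN.nfa (M.a ((M.f)^[2] (M.a d))) 6 hX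
    (by norm_num) (fun i => minimalPeriod M.f (M.a ((M.f)^[i] (M.a ((M.f)^[2] (M.a d))))))
    (fun i _ => rfl)
  -- a wheel vertex and one of the three last vertices
  have key : ∀ v < 23, ∀ v', 23 ≤ v' → v' < 26 → ¬ M.VEq (bsA M d v) (bsA M d v') := by
    intro v hv v' hv1 hv2 h
    have hb' : bsA M d v' = M.s ((M.f)^[v' - 20] (M.a ((M.f)^[2] (M.a d)))) := by
      unfold bsA
      rw [if_neg (by omega), if_neg (by omega)]
    have h1 : M.VEq (bsA M d v) ((M.f)^[v' - 20] (M.a ((M.f)^[2] (M.a d)))) := by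
      rw [hb'] at h
      set q := (M.f)^[v' - 20] (M.a ((M.f)^[2] (M.a d))) with hq
      rcases h with h | h | h
      · right; right
        rw [← h, M.s3]
      · left
        exact M.s_inj32 h
      · right; left
        exact M.s_inj32 h
    refine dg4_key hN d h6 h0 hn hX hnd (v' - 20) (by omega) (by omega) (bsA M d v) ?_ h1
    by_cases hv6 : v < 6
    · left
      refine ⟨v, ?_⟩
      unfold bsA
      rw [if_pos hv6]
    · right
      refine ⟨(getP idxA (v - 6)).1, (dg4_idx (v - 6) (by omega)).1, (getP idxA (v - 6)).2, ?_⟩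
      unfold bsA
      rw [if_neg hv6, if_pos hv]
  intro v hv v' hv' h
  by_cases h1 : v < 23
  · by_cases h2 : v' < 23
    · by_cases h3 : v < 6
      · by_cases h4 : v' < 6
        · unfold bsA at h
          rw [if_pos h3, if_pos h4] at h
          exact w1 v h3 v' h4 h
        · exfalso
          unfold bsA at h
          rw [if_pos h3, if_neg h4, if_pos h2] at h
          have h5 := dg4_idx (v' - 6) (by omega)
          exact w2 v h3 _ h5.1 _ h5.2.1 h5.2.2 h
      · by_cases h4 : v' < 6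
        · exfalso
          unfold bsA at h
          rw [if_pos h4, if_neg h3, if_pos h1] at h
          have h5 := dg4_idx (v - 6) (by omega)
          exact w2 v' h4 _ h5.1 _ h5.2.1 h5.2.2 (VEq_symm32 M h)
        · unfold bsA at h
          rw [if_neg h4, if_pos h2, if_neg h3, if_pos h1] at h
          have h5 := dg4_idx (v - 6) (by omega)
          have h7 := dg4_idx (v' - 6) (by omega)
          have h8 := w3 _ h5.1 _ h5.2.1 h5.2.2 _ h7.1 _ h7.2.1 h7.2.2 h
          have := dg4_idx_inj (v - 6) (by omega) (v' - 6) (by omega) h8.1 h8.2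
          omega
    · exact absurd h (key v h1 v' (by omega) hv')
  · by_cases h2 : v' < 23
    · exact absurd (VEq_symm32 M h) (key v' h2 v (by omega) hv)
    · unfold bsA at h
      rw [if_neg (by omega), if_neg h1, if_neg (by omega), if_neg h2] at h
      have h3 : M.VEq ((M.f)^[v - 20] (M.a ((M.f)^[2] (M.a d))))
          ((M.f)^[v' - 20] (M.a ((M.f)^[2] (M.a d)))) := by
        rcases h with h | h | h
        · left
          exact M.s_inj32 h
        · right; left
          exact M.s_inj32 h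
        · right; right
          exact M.s_inj32 h
      have := x1 (v - 20) (by omega) (v' - 20) (by omega) h3
      omega

end

end Pool.Agent.Helper17.CT
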